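import Pool.Agent.H17.EQ.TargetsQ

/-!
# Row MCR: points on a curve of small height with three points on the hypersurface
-/

set_option autoImplicit false

namespace Pool.Agent.H81.EE

open MvPolynomial SC Pool.Agent.H27.LV Pool.Agent.H17.VG Pool.Agent.H17.BO Pool.Agent.H17.EQ
  Pool.Agent.H30.EE

theorem pf_MCR (hSP : T_SP) (hUNR : T_UNR) (hBDR : T_BDR) (hHLK : T_HLK) (hHGR : T_HGR)
    (hMS : T_MS) : T_MCR := by
  classical
  intro n r d N hd
  obtain ⟨C₁, hC₁⟩ := hBDR n (r + 1) N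
  obtain ⟨C₂, hC₂⟩ := hHGR n r N
  refine ⟨C₂ * (C₁ + 1), ?_⟩
  intro k K _ _ _ _ _ _ htr D hD F hF x p hxp hev U Z V B hC hH S hS hnn
  obtain ⟨L, _, _, _, _, _, _, D', htrL, _, hD', hext, hspl⟩ := hSP k K htr D hD U hC.sep
  have hFK : (up K F).IsHomogeneous d := hF.map _
  -- a root
  have hdeg : (U.map (algebraMap K L)).degree ≠ 0 := by
    rw [Polynomial.degree_map]
    intro h0
    have h1 : U.natDegree = 0 := Polynomial.natDegree_eq_of_degree_eq_some (n := 0) h0
    have h2 := hC.deg1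
    omega
  obtain ⟨θ, hθ⟩ := hspl.exists_eval_eq_zero hdeg
  obtain ⟨T, hT, hTv⟩ := hC₁ k K htr U Z V B hC.monic hC.sep hH
  obtain ⟨α, hα⟩ : ∃ α : Fin (r + 1 + 1) → L,
      ∀ i, α i = ∑ l, Polynomial.aeval θ (V i l) * algebraMap K L (x l) := ⟨_, fun _ => rfl⟩
  have hm : 0 < Module.finrank K L := Module.finrank_pos
  have hG := hC₂ k K L htr htrL d (up K F) x p hd hFK hxp hev U Z V B hC hH θ hθ α hα
  obtain ⟨t, ht⟩ : ∃ t : L, t = α 1 / α 0 := ⟨_, rfl⟩
  rw [← ht] at hG
  have hh : (h1 k t : ℤ) ≤ Module.finrank K L * (canDeg D + S.card + C₁ * B) := by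
    by_cases h0 : D' t = 0
    · rw [(hHLK k K L htr htrL).2 D' hD' t h0]
      have h1 : (0 : ℤ) ≤ canDeg D + S.card + C₁ * B := by positivity
      positivity
    · have h1 := hMS k K L htr htrL D D' hD hD' hext (S ∪ T) t h0 (fun v w e hO hv => by
        rw [Finset.mem_union, not_or] at hv
        obtain ⟨a1, a2, a3, a4⟩ := hTv v hv.2
        obtain ⟨b1, b2⟩ := a4 L hspl w e hO θ hθ
        rw [ht]
        exact hUNR k K L htr D D' hD hext n r d F x p hd hF hxp hev U Z V hC θ hθ α hα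
          v w e hO a1 a2 a3 b1 b2 (hS v hv.1))
      refine h1.trans ?_
      refine mul_le_mul_of_nonneg_left ?_ (by positivity)
      have h2 : ((S ∪ T).card : ℤ) ≤ S.card + T.card := by exact_mod_cast Finset.card_union_le S T
      have h3 : (T.card : ℤ) ≤ C₁ * B := by exact_mod_cast hT
      linarith
  have hG' : (Module.finrank K L : ℤ) * deg k x ≤
      C₂ * (h1 k t + Module.finrank K L * B) := by exact_mod_cast hG
  have h5 : (Module.finrank K L : ℤ) * deg k x ≤
      Module.finrank K L * (C₂ * (canDeg D + S.card + C₁ * B + B)) := by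
    calc (Module.finrank K L : ℤ) * deg k x ≤ C₂ * (h1 k t + Module.finrank K L * B) := hG'
      _ ≤ C₂ * (Module.finrank K L * (canDeg D + S.card + C₁ * B) + Module.finrank K L * B) :=
          mul_le_mul_of_nonneg_left (by linarith) (by positivity)
      _ = _ := by ring
  have h6 : (deg k x : ℤ) ≤ C₂ * (canDeg D + S.card + C₁ * B + B) :=
    le_of_mul_le_mul_left h5 (by exact_mod_cast hm)
  refine h6.trans ?_
  push_cast
  have h7 : (0 : ℤ) ≤ C₂ * (C₁ * (canDeg D + S.card)) := by positivity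
  nlinarith [h7]

end Pool.Agent.H81.EE
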